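import Pool.Agent.U433.UB.FSBa
import Pool.Agent.R751.MB.Fsu
import Pool.Agent.R751.MB.Prb
import Pool.Agent.R751.MB.Prd
import Pool.Agent.R755.KF.Cls

/-!
# Project UB (KUS), package FSB: boundedly many blocks
-/

set_option autoImplicit false

namespace Pool.Agent.U433.UB

open MeasureTheory Set
open Pool.Agent.U18.UB

/-- package FSB -/
theorem t_FSB : S_FSB :=
  t_FSB' (Pool.Agent.R751.MB.fsu (Pool.Agent.R751.MB.prb Pool.Agent.R751.MB.prd))
    fun c0 δ hc0 hδ => ⟨Real.sqrt (δ / c0), Real.sqrt_pos.2 (by positivity), fun _ _ hN hP =>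
      Pool.Agent.R755.KF.cc_of_kp hc0 hδ hN.compact hN.int (hP.kp hc0.le)⟩

end Pool.Agent.U433.UB
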