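import Pool.Agent.U18.UB.Stm

/-!
# Project UB, package TL: the boundary points of an isotropic body with a Poincare inequality
-/

set_option autoImplicit false

namespace Pool.Agent.U433.UB

open MeasureTheory Set Filter Topology
open scoped ENNReal InnerProductSpace Pointwise
open Pool.Agent.U18.UB

variable {m : ℕ} {N : E m → ℝ}

theorem N_zero (h : Nrm N) : N 0 = 0 := by
  have := h.smul 0 0
  simpa using this

theorem N_nonneg (h : Nrm N) (x : E m) : 0 ≤ N x := by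
  by_cases hx : x = 0
  · rw [hx, N_zero h]
  · exact (h.pos x hx).le

theorem N_bound (h : Nrm N) : ∃ C : ℝ, 0 ≤ C ∧ ∀ x, N x ≤ C * ‖x‖ := by
  refine ⟨∑ i, N (EuclideanSpace.single i 1), Finset.sum_nonneg fun i _ => N_nonneg h _,
    fun x => ?_⟩
  have h1 : x = ∑ i, x i • EuclideanSpace.single i (1 : ℝ) := by
    have h2 := (EuclideanSpace.basisFun (Fin m) ℝ).sum_repr x
    simpa using h2.symm
  calc N x = N (∑ i, x i • EuclideanSpace.single i (1 : ℝ)) := by rw [← h1]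
    _ ≤ ∑ i, N (x i • EuclideanSpace.single i (1 : ℝ)) :=
        Finset.le_sum_of_subadditive N (N_zero h).le h.add_le _ _
    _ = ∑ i, |x i| * N (EuclideanSpace.single i 1) := by simp_rw [h.smul]
    _ ≤ ∑ i, ‖x‖ * N (EuclideanSpace.single i 1) := Finset.sum_le_sum fun i _ =>
        mul_le_mul_of_nonneg_right (PiLp.norm_apply_le x i) (N_nonneg h _)
    _ = (∑ i, N (EuclideanSpace.single i 1)) * ‖x‖ := by rw [← Finset.mul_sum, mul_comm]

theorem N_cont (h : Nrm N) : Continuous N := by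
  obtain ⟨C, hC, hb⟩ := N_bound h
  have h1 : ∀ x y, |N x - N y| ≤ C * ‖x - y‖ := by
    intro x y
    rw [abs_le]
    constructor
    · have h2 := h.add_le (y - x) x
      rw [sub_add_cancel] at h2
      have h3 := hb (y - x)
      rw [norm_sub_rev] at h3
      linarith
    · have h2 := h.add_le (x - y) y
      rw [sub_add_cancel] at h2
      have h3 := hb (x - y)
      linarith
  exact (LipschitzWith.of_dist_le_mul (K := ⟨C, hC⟩) fun x y => by
    rw [Real.dist_eq, dist_eq_norm]; exact h1 x y).continuous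

theorem N_lower (hm : 1 ≤ m) (h : Nrm N) : ∃ c : ℝ, 0 < c ∧ ∀ x, c * ‖x‖ ≤ N x := by
  have hne : (Metric.sphere (0 : E m) 1).Nonempty := by
    refine ⟨EuclideanSpace.single ⟨0, hm⟩ 1, ?_⟩
    simp
  obtain ⟨x0, hx0, hmin⟩ :=
    (isCompact_sphere (0 : E m) 1).exists_isMinOn hne (N_cont h).continuousOn
  have hx0' : x0 ≠ 0 := by
    rintro rfl
    simp at hx0
  refine ⟨N x0, h.pos x0 hx0', fun x => ?_⟩
  by_cases hx : x = 0
  · rw [hx, norm_zero, mul_zero, N_zero h]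
  · have hxn : 0 < ‖x‖ := norm_pos_iff.2 hx
    have h1 : N x0 ≤ N (‖x‖⁻¹ • x) := hmin (by simp [norm_smul, hxn.ne'])
    rw [h.smul, abs_of_pos (inv_pos.2 hxn)] at h1
    rw [← le_div_iff₀ hxn, div_eq_inv_mul]
    exact h1

theorem ball_compact (hm : 1 ≤ m) (h : Nrm N) : IsCompact (ball N) := by
  obtain ⟨c, hc, hl⟩ := N_lower hm h
  refine Metric.isCompact_of_isClosed_isBounded (isClosed_le (N_cont h) continuous_const) ?_
  refine (Metric.isBounded_closedBall (x := (0 : E m)) (r := c⁻¹)).subset fun x hx => ?_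
  rw [mem_closedBall_zero_iff]
  have h1 : c * ‖x‖ ≤ 1 := (hl x).trans hx
  rw [← one_div, le_div_iff₀ hc, mul_comm]
  exact h1

theorem ball_vol_ne_zero (h : Nrm N) : volume (ball N) ≠ 0 := by
  have h1 : IsOpen {x : E m | N x < 1} := isOpen_lt (N_cont h) continuous_const
  have h2 : {x : E m | N x < 1}.Nonempty := ⟨0, by
    show N 0 < 1
    rw [N_zero h]
    exact one_pos⟩
  have h3 : volume {x : E m | N x < 1} ≤ volume (ball N) := 
    measure_mono fun x hx => (show N x ≤ 1 from le_of_lt hx)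
  exact (lt_of_lt_of_le (h1.measure_pos volume h2) h3).ne'

theorem ball_vol_ne_top (hm : 1 ≤ m) (h : Nrm N) : volume (ball N) ≠ ⊤ :=
  (ball_compact hm h).measure_lt_top.ne

theorem un_prob (hm : 1 ≤ m) (h : Nrm N) : IsProbabilityMeasure (un (ball N)) := by
  refine ⟨?_⟩
  unfold un
  rw [Measure.smul_apply, Measure.restrict_apply MeasurableSet.univ, univ_inter, smul_eq_mul]
  exact ENNReal.inv_mul_cancel (ball_vol_ne_zero h) (ball_vol_ne_top hm h)

theorem integ (hm : 1 ≤ m) (h : Nrm N) {g : E m → ℝ} (hg : Continuous g) :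
    Integrable g (un (ball N)) := by
  unfold un
  exact (hg.continuousOn.integrableOn_compact (ball_compact hm h)).smul_measure
    (ENNReal.inv_ne_top.2 (ball_vol_ne_zero h))

/-- `1 + |z|²` -/
noncomputable def q (z : E m) : ℝ := 1 + ‖z‖ ^ 2

theorem q_cont : Continuous (q (m := m)) := by
  unfold q
  fun_prop

theorem one_le_q (z : E m) : 1 ≤ q z := by
  unfold q
  nlinarith [sq_nonneg ‖z‖]

/-- the moments of `1 + |z|²` -/
noncomputable def mom (N : E m → ℝ) (k : ℕ) : ℝ := ∫ z, q z ^ k ∂(un (ball N))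

theorem second (hm : 1 ≤ m) (h : Nrm N)
    (hcov : ∀ θ : E m, ∫ x, ⟪x, θ⟫_ℝ ^ 2 ∂(un (ball N)) = ‖θ‖ ^ 2) : mom N 1 = 1 + m := by
  have := un_prob hm h
  unfold mom q
  simp_rw [pow_one]
  rw [integral_add (integrable_const _) (integ hm h (by fun_prop))]
  have h1 : ∀ z : E m, ‖z‖ ^ 2 = ∑ i, ⟪z, EuclideanSpace.single i (1 : ℝ)⟫_ℝ ^ 2 := by
    intro z
    rw [EuclideanSpace.norm_sq_eq]
    refine Finset.sum_congr rfl fun i _ => ?_
    rw [EuclideanSpace.inner_single_right]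
    simp
  simp_rw [h1]
  rw [integral_finsetSum _ fun i _ => integ hm h (by fun_prop)]
  simp_rw [hcov]
  simp

theorem step (hm : 1 ≤ m) {c0 : ℝ} (hc0 : 0 < c0) (h : Blk c0 N) (k : ℕ) (hk : 1 ≤ k) :
    mom N (2 * k) ≤ mom N k ^ 2 + 4 * c0 * k ^ 2 * mom N (2 * k - 1) := by
  have hf : ContDiff ℝ 1 (fun z : E m => (1 + ‖z‖ ^ 2) ^ k) :=
    (contDiff_const.add (contDiff_norm_sq ℝ)).pow k
  have h1 := h.poi _ hf
  have hder : ∀ z : E m, ‖fderiv ℝ (fun z : E m => (1 + ‖z‖ ^ 2) ^ k) z‖ =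
      k * (1 + ‖z‖ ^ 2) ^ (k - 1) * (2 * ‖z‖) := by
    intro z
    have h2 := ((hasStrictFDerivAt_norm_sq z).hasFDerivAt.const_add (1 : ℝ)).pow k
    have h5 : (2 • innerSL ℝ z : E m →L[ℝ] ℝ) = (2 : ℝ) • innerSL ℝ z := by rw [two_smul, two_smul]
    have h4 : (0 : ℝ) ≤ (k : ℝ) * (1 + ‖z‖ ^ 2) ^ (k - 1) := by positivity
    rw [h2.fderiv, nsmul_eq_mul, h5, norm_smul, Real.norm_of_nonneg h4, norm_smul, innerSL_apply_norm]
    norm_num
  have e1 : (fun z : E m => ((1 + ‖z‖ ^ 2) ^ k) ^ 2) = fun z => q z ^ (2 * k) := by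
    funext z
    unfold q
    rw [← pow_mul, mul_comm]
  have e2 : ∫ z, ((1 + ‖z‖ ^ 2) ^ k) ^ 2 ∂(un (ball N)) = mom N (2 * k) := by
    rw [e1]
    rfl
  have e3 : ∫ z, (1 + ‖z‖ ^ 2) ^ k ∂(un (ball N)) = mom N k := rfl
  have e4 : ∫ z, ‖fderiv ℝ (fun z : E m => (1 + ‖z‖ ^ 2) ^ k) z‖ ^ 2 ∂(un (ball N)) ≤
      4 * k ^ 2 * mom N (2 * k - 1) := by
    simp_rw [hder]
    unfold mom
    rw [← integral_const_mul]
    refine integral_mono (integ hm h.nrm (by fun_prop)) (integ hm h.nrm ?_) fun z => ?_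
    · exact continuous_const.mul (q_cont.pow _)
    · show (k * (1 + ‖z‖ ^ 2) ^ (k - 1) * (2 * ‖z‖)) ^ 2 ≤ 4 * k ^ 2 * q z ^ (2 * k - 1)
      have h5 : q z ^ (2 * k - 1) = (q z ^ (k - 1)) ^ 2 * q z := by
        rw [← pow_mul, ← pow_succ]
        congr 1
        omega
      have h6 : (k * (1 + ‖z‖ ^ 2) ^ (k - 1) * (2 * ‖z‖)) ^ 2 =
          4 * k ^ 2 * ((q z ^ (k - 1)) ^ 2 * ‖z‖ ^ 2) := by
        unfold q
        ring
      rw [h5, h6]
      have h7 : ‖z‖ ^ 2 ≤ q z := by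
        unfold q
        linarith
      have h8 : 0 ≤ q z := by linarith [one_le_q z]
      gcongr
  simp only at h1
  rw [e2, e3] at h1
  have h9 : c0 * ∫ z, ‖fderiv ℝ (fun z : E m => (1 + ‖z‖ ^ 2) ^ k) z‖ ^ 2 ∂(un (ball N)) ≤
      c0 * (4 * k ^ 2 * mom N (2 * k - 1)) := mul_le_mul_of_nonneg_left e4 hc0.le
  nlinarith

theorem mom_nonneg (k : ℕ) : 0 ≤ mom N k :=
  integral_nonneg fun z => pow_nonneg (by linarith [one_le_q z]) _

theorem odd_bound (hm : 1 ≤ m) (h : Nrm N) {M : ℝ} (hM : 0 < M) (k : ℕ) (hk : 1 ≤ k) :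
    mom N (2 * k - 1) ≤ mom N (2 * k) / M + M ^ (2 * k - 1) := by
  have := un_prob hm h
  have h1 : mom N (2 * k) / M + M ^ (2 * k - 1) =
      ∫ z, (q z ^ (2 * k) / M + M ^ (2 * k - 1)) ∂(un (ball N)) := by
    have i1 : Integrable (fun z => q z ^ (2 * k) / M) (un (ball N)) :=
      integ hm h ((q_cont.pow _).div_const _)
    rw [integral_add i1 (integrable_const _), integral_div]
    simp [mom]
  rw [h1]
  unfold mom
  refine integral_mono (integ hm h (q_cont.pow _))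
    (integ hm h (((q_cont.pow _).div_const _).add continuous_const)) fun z => ?_
  show q z ^ (2 * k - 1) ≤ q z ^ (2 * k) / M + M ^ (2 * k - 1)
  have hq : 0 < q z := by linarith [one_le_q z]
  rcases le_total M (q z) with h2 | h2
  · have h3 : q z ^ (2 * k - 1) ≤ q z ^ (2 * k) / M := by
      rw [le_div_iff₀ hM]
      calc q z ^ (2 * k - 1) * M ≤ q z ^ (2 * k - 1) * q z := by gcongr
        _ = q z ^ (2 * k) := by
          rw [← pow_succ]
          congr 1
          omega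
    have h4 : 0 ≤ M ^ (2 * k - 1) := by positivity
    linarith
  · have h3 : q z ^ (2 * k - 1) ≤ M ^ (2 * k - 1) := pow_le_pow_left₀ hq.le h2 _
    have h4 : 0 ≤ q z ^ (2 * k) / M := by positivity
    linarith

theorem mom_bound (hm : 1 ≤ m) {c0 : ℝ} (hc0 : 0 < c0) (h : Blk c0 N) {M : ℝ}
    (hM : (1 : ℝ) + m ≤ M) : ∀ j : ℕ, 16 * c0 * (2 ^ j : ℝ) ^ 2 ≤ 4 * M →
    mom N (2 ^ j) ≤ 1 / 2 * (2 * M) ^ (2 ^ j) := by
  have hM0 : 0 < M := by
    have : (0 : ℝ) ≤ m := Nat.cast_nonneg m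
    linarith
  intro j
  induction j with
  | zero =>
    intro _
    rw [pow_zero, second hm h.nrm h.cov, pow_one]
    linarith
  | succ j ih =>
    intro hj
    have hj' : 16 * c0 * (2 ^ j : ℝ) ^ 2 ≤ M := by
      have : ((2 : ℝ) ^ (j + 1)) ^ 2 = 4 * (2 ^ j) ^ 2 := by rw [pow_succ]; ring
      rw [this] at hj
      linarith
    have hI := ih (by linarith)
    have hk : 1 ≤ 2 ^ j := Nat.one_le_two_pow
    have h1 := step hm hc0 h (2 ^ j) hk
    have h2 := odd_bound hm h.nrm hM0 (2 ^ j) hk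
    set k : ℕ := 2 ^ j with hkdef
    have hkc : ((k : ℕ) : ℝ) = 2 ^ j := by rw [hkdef]; push_cast; rfl
    have e : 2 ^ (j + 1) = 2 * k := by rw [pow_succ, mul_comm]
    rw [e]
    have hA := mom_nonneg (N := N) (2 * k)
    have hB := mom_nonneg (N := N) k
    have hC := mom_nonneg (N := N) (2 * k - 1)
    have h10 : M * M ^ (2 * k - 1) = M ^ (2 * k) := by
      rw [← pow_succ']
      congr 1
      omega
    have h3 : 4 * c0 * (k : ℝ) ^ 2 * mom N (2 * k - 1) ≤ mom N (2 * k) / 4 + M ^ (2 * k) / 4 := by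
      have h4 : 4 * c0 * (k : ℝ) ^ 2 ≤ M / 4 := by
        rw [hkc]
        linarith
      calc 4 * c0 * (k : ℝ) ^ 2 * mom N (2 * k - 1) ≤ M / 4 * mom N (2 * k - 1) := by gcongr
        _ ≤ M / 4 * (mom N (2 * k) / M + M ^ (2 * k - 1)) := by gcongr
        _ = mom N (2 * k) / 4 + M * M ^ (2 * k - 1) / 4 := by field_simp
        _ = mom N (2 * k) / 4 + M ^ (2 * k) / 4 := by rw [h10]
    have h5 : mom N k ^ 2 ≤ 1 / 4 * (2 * M) ^ (2 * k) := by
      calc mom N k ^ 2 ≤ (1 / 2 * (2 * M) ^ k) ^ 2 := pow_le_pow_left₀ hB hI 2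
        _ = 1 / 4 * (2 * M) ^ (2 * k) := by
          rw [mul_pow, ← pow_mul, mul_comm k 2]
          norm_num
    have h6 : M ^ (2 * k) ≤ 1 / 4 * (2 * M) ^ (2 * k) := by
      rw [mul_pow, pow_mul 2 2 k]
      have h7 : (4 : ℝ) ≤ (2 ^ 2) ^ k := by
        calc (4 : ℝ) = (2 ^ 2) ^ 1 := by norm_num
          _ ≤ (2 ^ 2) ^ k := pow_le_pow_right₀ (by norm_num) hk
      have h8 : 0 ≤ M ^ (2 * k) := by positivity
      calc M ^ (2 * k) = 1 / 4 * (4 * M ^ (2 * k)) := by ring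
        _ ≤ 1 / 4 * ((2 ^ 2) ^ k * M ^ (2 * k)) := by gcongr
    have h9 : 0 ≤ (2 * M) ^ (2 * k) := by positivity
    linarith

theorem tail (hm : 1 ≤ m) {c0 : ℝ} (hc0 : 0 < c0) (h : Blk c0 N) {M : ℝ}
    (hM : (1 : ℝ) + m ≤ M) (hM2 : 16 * c0 ≤ M) : ∃ k : ℕ, M ≤ 16 * c0 * (k : ℝ) ^ 2 ∧
    (un (ball N)).real {z | 2 * Real.exp 1 * M ≤ q z} ≤ 1 / 2 * Real.exp (-k) := by
  have := un_prob hm h.nrm
  have hM0 : 0 < M := by
    have : (0 : ℝ) ≤ m := Nat.cast_nonneg m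
    linarith
  have hex : ∃ j : ℕ, M < 16 * c0 * (2 ^ j : ℝ) ^ 2 := by
    obtain ⟨j, hj⟩ := pow_unbounded_of_one_lt (M / (16 * c0)) (by norm_num : (1 : ℝ) < 4)
    refine ⟨j, ?_⟩
    rw [div_lt_iff₀ (by positivity)] at hj
    have : ((2 : ℝ) ^ j) ^ 2 = 4 ^ j := by rw [← pow_mul, mul_comm, pow_mul]; norm_num
    rw [this]
    linarith
  classical
  set j := Nat.find hex with hjdef
  have hj := Nat.find_spec hex
  have hj0 : j ≠ 0 := by
    intro h0
    rw [← hjdef, h0] at hj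
    norm_num at hj
    linarith
  obtain ⟨i, hi⟩ := Nat.exists_eq_succ_of_ne_zero hj0
  have hi' : ¬ M < 16 * c0 * (2 ^ i : ℝ) ^ 2 := Nat.find_min hex (by omega)
  have hjb : 16 * c0 * (2 ^ j : ℝ) ^ 2 ≤ 4 * M := by
    rw [hi]
    have : ((2 : ℝ) ^ (i.succ)) ^ 2 = 4 * (2 ^ i) ^ 2 := by
      rw [Nat.succ_eq_add_one, pow_succ 2 i]
      ring
    rw [this]
    linarith [not_lt.1 hi']
  have hb := mom_bound hm hc0 h hM j hjb
  refine ⟨2 ^ j, ?_, ?_⟩
  · push_cast
    exact hj.le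
  · set k : ℕ := 2 ^ j with hk
    set s : ℝ := 2 * Real.exp 1 * M with hs
    have hs0 : 0 < s := by positivity
    have h1 := mul_meas_ge_le_integral_of_nonneg (μ := un (ball N)) (f := fun z => q z ^ k)
      (Filter.Eventually.of_forall fun z => pow_nonneg (by linarith [one_le_q z]) _)
      (integ hm h.nrm (q_cont.pow k)) (s ^ k)
    have h2 : (un (ball N)).real {z | s ≤ q z} ≤ (un (ball N)).real {z | s ^ k ≤ q z ^ k} :=
      measureReal_mono fun z hz => pow_le_pow_left₀ hs0.le hz k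
    have h3 : s ^ k * (un (ball N)).real {z | s ≤ q z} ≤ 1 / 2 * (2 * M) ^ k := by
      calc s ^ k * (un (ball N)).real {z | s ≤ q z} ≤ s ^ k * (un (ball N)).real {z | s ^ k ≤ q z ^ k} := by
            gcongr
        _ ≤ mom N k := h1
        _ ≤ _ := hb
    have h4 : s ^ k = Real.exp k * (2 * M) ^ k := by
      have : s = Real.exp 1 * (2 * M) := by rw [hs]; ring
      rw [this, mul_pow, ← Real.exp_nat_mul, mul_one]
    rw [h4] at h3
    have h5 : 0 < (2 * M) ^ k := by positivity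
    have h6 : Real.exp k * (un (ball N)).real {z | s ≤ q z} ≤ 1 / 2 := by
      have h7 : (2 * M) ^ k * (Real.exp k * (un (ball N)).real {z | s ≤ q z}) ≤ (2 * M) ^ k * (1 / 2) := by
        linarith
      exact le_of_mul_le_mul_left h7 h5
    rw [Real.exp_neg, ← div_eq_mul_inv, le_div_iff₀ (Real.exp_pos _), mul_comm]
    exact h6

/-- comparison of the cone with its part near the boundary -/
theorem cone (hm : 1 ≤ m) (h : Nrm N) {ρ : ℝ} (hρ : 0 ≤ ρ) :
    un (ball N) {z | 2 * ρ * N z < ‖z‖} ≤ 2 * un (ball N) {z | ρ < ‖z‖} := by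
  have hc := N_cont h
  set A : Set (E m) := {z | 2 * ρ * N z < ‖z‖} with hA
  have hAm : MeasurableSet A := (isOpen_lt (continuous_const.mul hc) continuous_norm).measurableSet
  have hBm : MeasurableSet {z : E m | ρ < ‖z‖} := (isOpen_lt continuous_const continuous_norm).measurableSet
  have hsub : A ∩ ball N ⊆ ({z | ρ < ‖z‖} ∩ ball N) ∪ (1 / 2 : ℝ) • (A ∩ ball N) := by
    intro z hz
    rcases le_total (N z) (1 / 2) with h1 | h1
    · right
      refine ⟨(2 : ℝ) • z, ⟨?_, ?_⟩, ?_⟩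
      · show 2 * ρ * N ((2 : ℝ) • z) < ‖(2 : ℝ) • z‖
        rw [h.smul, norm_smul, Real.norm_eq_abs, abs_of_pos (by norm_num : (0 : ℝ) < 2)]
        have h2 : 2 * ρ * N z < ‖z‖ := hz.1
        linarith
      · show N ((2 : ℝ) • z) ≤ 1
        rw [h.smul, abs_of_pos (by norm_num : (0 : ℝ) < 2)]
        linarith
      · show (1 / 2 : ℝ) • (2 : ℝ) • z = z
        rw [smul_smul]
        norm_num
    · left
      refine ⟨?_, hz.2⟩
      have h2 : 2 * ρ * N z < ‖z‖ := hz.1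
      show ρ < ‖z‖
      nlinarith
  have hv : volume (A ∩ ball N) ≤ volume ({z | ρ < ‖z‖} ∩ ball N) + volume (A ∩ ball N) / 2 := by
    refine (measure_mono hsub).trans ((measure_union_le _ _).trans ?_)
    gcongr
    rw [Measure.addHaar_smul, finrank_euclideanSpace_fin]
    have h3 : |((1 : ℝ) / 2) ^ m| ≤ 1 / 2 := by
      rw [abs_of_nonneg (by positivity)]
      calc ((1 : ℝ) / 2) ^ m ≤ (1 / 2) ^ 1 := pow_le_pow_of_le_one (by norm_num) (by norm_num) hm
        _ = 1 / 2 := pow_one _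
    calc ENNReal.ofReal |((1 : ℝ) / 2) ^ m| * volume (A ∩ ball N) ≤ ENNReal.ofReal (1 / 2) * volume (A ∩ ball N) := by
          gcongr
      _ = volume (A ∩ ball N) / 2 := by
          rw [ENNReal.ofReal_div_of_pos (by norm_num), ENNReal.ofReal_one, ENNReal.ofReal_ofNat,
            mul_comm, mul_one_div]
  have hfin : volume (A ∩ ball N) ≠ ⊤ :=
    (lt_of_le_of_lt (measure_mono inter_subset_right) (ball_vol_ne_top hm h).lt_top).ne
  have hv2 : volume (A ∩ ball N) / 2 ≤ volume ({z | ρ < ‖z‖} ∩ ball N) := by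
    have h4 : volume (A ∩ ball N) / 2 + volume (A ∩ ball N) / 2 ≤
        volume ({z | ρ < ‖z‖} ∩ ball N) + volume (A ∩ ball N) / 2 := by
      rw [ENNReal.add_halves]
      exact hv
    exact (ENNReal.add_le_add_iff_right (ENNReal.div_lt_top hfin (by norm_num)).ne).1 h4
  unfold un
  rw [Measure.smul_apply, Measure.smul_apply, Measure.restrict_apply hAm,
    Measure.restrict_apply hBm, smul_eq_mul, smul_eq_mul]
  have h5 : volume (A ∩ ball N) ≤ 2 * volume ({z | ρ < ‖z‖} ∩ ball N) := by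
    rw [ENNReal.div_le_iff (by norm_num) (by norm_num)] at hv2
    rw [mul_comm]
    exact hv2
  calc (volume (ball N))⁻¹ * volume (A ∩ ball N) ≤
      (volume (ball N))⁻¹ * (2 * volume ({z | ρ < ‖z‖} ∩ ball N)) := by gcongr
    _ = _ := by ring

theorem t_TL : S_TL := by
  intro c0 T ε hc0 hT hε
  set lam : ℝ := max 1 (-Real.log ε) with hlam
  have hlam1 : 1 ≤ lam := le_max_left _ _
  have hlam2 : -Real.log ε ≤ lam := le_max_right _ _
  set L : ℝ := 1 + 16 * c0 + 16 * c0 * lam ^ 2 * T with hL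
  have hL1 : 1 ≤ L := by
    have : 0 ≤ 16 * c0 * lam ^ 2 * T := by positivity
    linarith
  set R0 : ℝ := Real.sqrt (4 * Real.exp 1 * L) with hR0
  have he : 1 ≤ Real.exp 1 := Real.one_le_exp (by norm_num)
  have hR01 : 1 ≤ R0 := by
    rw [hR0, Real.one_le_sqrt]
    nlinarith
  have hR0sq : R0 ^ 2 = 4 * Real.exp 1 * L := Real.sq_sqrt (by positivity)
  refine ⟨2 * R0, by linarith, fun m N hm hB b hb hlog => ?_⟩
  have := un_prob hm hB.nrm
  have hm1 : (1 : ℝ) ≤ m := by exact_mod_cast hm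
  have hb1 : (1 : ℝ) ≤ b := by exact_mod_cast hb
  have hlogb : 0 ≤ Real.log b := Real.log_nonneg hb1
  set M : ℝ := (1 + m) * L with hM
  have hM1 : (1 : ℝ) + m ≤ M := by
    rw [hM]
    nlinarith
  have hM2 : 16 * c0 ≤ M := by
    have h0 : 0 ≤ 16 * c0 * lam ^ 2 * T := by positivity
    have h1 : 16 * c0 ≤ L := by linarith
    rw [hM]
    nlinarith
  obtain ⟨k, hk1, hk2⟩ := tail hm hc0 hB hM1 hM2
  -- the size of k
  have hkk : lam * (1 + Real.log b) ≤ k := by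
    have h1 : 16 * c0 * (lam * (1 + Real.log b)) ^ 2 ≤ 16 * c0 * (k : ℝ) ^ 2 := by
      calc 16 * c0 * (lam * (1 + Real.log b)) ^ 2 = 16 * c0 * lam ^ 2 * (1 + Real.log b) ^ 2 := by ring
        _ ≤ 16 * c0 * lam ^ 2 * (T * m) := by gcongr
        _ = (16 * c0 * lam ^ 2 * T) * m := by ring
        _ ≤ L * m := by
          gcongr
          linarith
        _ ≤ M := by rw [hM]; nlinarith
        _ ≤ _ := hk1
    have h2 : (lam * (1 + Real.log b)) ^ 2 ≤ (k : ℝ) ^ 2 := le_of_mul_le_mul_left h1 (by positivity)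
    exact le_of_sq_le_sq h2 (Nat.cast_nonneg k)
  have hexp : Real.exp (-k) ≤ ε / b := by
    have hb0 : (0 : ℝ) < b := by linarith
    rw [le_div_iff₀ hb0]
    calc Real.exp (-k) * b = Real.exp (-k + Real.log b) := by rw [Real.exp_add, Real.exp_log hb0]
      _ ≤ Real.exp (Real.log ε) := by
        apply Real.exp_le_exp.2
        nlinarith
      _ = ε := Real.exp_log hε
  have hset : {z : E m | R0 * Real.sqrt m < ‖z‖} ⊆ {z | 2 * Real.exp 1 * M ≤ q z} := by
    intro z hz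
    have h1 : R0 * Real.sqrt m < ‖z‖ := hz
    have h2 : (R0 * Real.sqrt m) ^ 2 ≤ ‖z‖ ^ 2 := pow_le_pow_left₀ (by positivity) h1.le 2
    rw [mul_pow, hR0sq, Real.sq_sqrt (by positivity)] at h2
    show 2 * Real.exp 1 * M ≤ 1 + ‖z‖ ^ 2
    have h3 : 2 * Real.exp 1 * M ≤ 4 * Real.exp 1 * L * m := by
      rw [hM]
      have h4 : (1 + (m : ℝ)) ≤ 2 * m := by linarith
      calc 2 * Real.exp 1 * ((1 + m) * L) ≤ 2 * Real.exp 1 * ((2 * m) * L) := by gcongr
        _ = 4 * Real.exp 1 * L * m := by ring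
    linarith
  have hP : un (ball N) {z | R0 * Real.sqrt m < ‖z‖} ≤ ENNReal.ofReal (ε / b / 2) := by
    have h1 : (un (ball N)).real {z | R0 * Real.sqrt m < ‖z‖} ≤ ε / b / 2 := by
      calc (un (ball N)).real {z | R0 * Real.sqrt m < ‖z‖} ≤
          (un (ball N)).real {z | 2 * Real.exp 1 * M ≤ q z} := measureReal_mono hset
        _ ≤ 1 / 2 * Real.exp (-k) := hk2
        _ ≤ ε / b / 2 := by linarith
    rw [← ENNReal.ofReal_toReal (measure_ne_top (un (ball N)) _)]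
    exact ENNReal.ofReal_le_ofReal h1
  have hρ : 0 ≤ R0 * Real.sqrt m := by positivity
  have hfin := cone hm hB.nrm hρ
  have e : {z : E m | 2 * R0 * Real.sqrt m * N z < ‖z‖} = {z | 2 * (R0 * Real.sqrt m) * N z < ‖z‖} := by
    ext z
    show 2 * R0 * Real.sqrt m * N z < ‖z‖ ↔ 2 * (R0 * Real.sqrt m) * N z < ‖z‖
    rw [mul_assoc 2 R0 (Real.sqrt m)]
  rw [e]
  calc un (ball N) {z | 2 * (R0 * Real.sqrt m) * N z < ‖z‖} ≤ 2 * un (ball N) {z | R0 * Real.sqrt m < ‖z‖} := hfin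
    _ ≤ 2 * ENNReal.ofReal (ε / b / 2) := by gcongr
    _ = ENNReal.ofReal (ε / b) := by
      rw [← ENNReal.ofReal_ofNat, ← ENNReal.ofReal_mul (by norm_num)]
      congr 1
      ring

end Pool.Agent.U433.UB
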