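import Pool.Agent.U18.UB.Stm2
import Pool.Agent.U18.UB.Nm

/-!
# Project UB (KUS), package FSB: boundedly many blocks, reduction to the library theorem
-/

set_option autoImplicit false

namespace Pool.Agent.U433.UB

open MeasureTheory Set
open Pool.Agent.U18.UB

/-- unconditional bodies in coordinates -/
theorem ubody_of {b : ℕ} {D : Set (Fin b → ℝ)} (hD : UBd D) :
    Pool.Agent.R751.MB.UBody ((EuclideanSpace.equiv (Fin b) ℝ) ⁻¹' D) := by
  let e' : EuclideanSpace ℝ (Fin b) ≃L[ℝ] (Fin b → ℝ) := EuclideanSpace.equiv (Fin b) ℝ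
  refine ⟨⟨e'.toHomeomorph.isCompact_preimage.2 hD.comp,
    hD.conv.linear_preimage e'.toLinearEquiv.toLinearMap, ?_⟩, fun t ht s hs => ?_⟩
  · obtain ⟨x, hx⟩ := hD.int
    have h2 : IsOpen (e' ⁻¹' interior D) := isOpen_interior.preimage e'.continuous
    refine ⟨e'.symm x, interior_maximal (preimage_mono interior_subset) h2 ?_⟩
    change e' (e'.symm x) ∈ interior D
    rw [e'.apply_symm_apply]
    exact hx
  · exact hD.unc _ ht _ hs

/-- the bodies as sums of balls -/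
theorem bs_eq {b : ℕ} {m : Fin b → ℕ} {N : ∀ i, E (m i) → ℝ} (hN : ∀ i, Nrm (N i))
    {D : Set (Fin b → ℝ)} (hD : UBd D) :
    bs N D = Pool.Agent.R751.MB.dsum ((EuclideanSpace.equiv (Fin b) ℝ) ⁻¹' D)
      (fun i => ball (N i)) := by
  ext x
  constructor
  · intro hx
    refine ⟨(EuclideanSpace.equiv (Fin b) ℝ).symm fun i => N i (x i), ?_, fun i => ?_⟩
    · rw [mem_preimage, ContinuousLinearEquiv.apply_symm_apply]
      exact hx
    · by_cases h1 : N i (x i) = 0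
      · have h2 : x i = 0 := by
          by_contra h3
          exact ((hN i).pos _ h3).ne' h1
        refine ⟨0, ?_, ?_⟩
        · change N i 0 ≤ 1
          rw [(hN i).zero]
          exact zero_le_one
        · rw [h2]
          simp
      · have h2 : 0 < N i (x i) := lt_of_le_of_ne ((hN i).nonneg _) (Ne.symm h1)
        refine ⟨(N i (x i))⁻¹ • x i, ?_, ?_⟩
        · change N i _ ≤ 1
          rw [(hN i).smul, abs_inv, abs_of_pos h2, inv_mul_cancel₀ h1]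
        · change N i (x i) • (N i (x i))⁻¹ • x i = x i
          rw [smul_smul, mul_inv_cancel₀ h1, one_smul]
  · rintro ⟨t, ht, hx⟩
    refine hD.unc _ ht _ fun i => ?_
    obtain ⟨z, hz, e⟩ := hx i
    have hz' : N i z ≤ 1 := hz
    change |N i (x i)| ≤ |t i|
    rw [abs_of_nonneg ((hN i).nonneg _), ← e]
    change N i (t i • z) ≤ |t i|
    rw [(hN i).smul]
    exact mul_le_of_le_one_right (abs_nonneg _) hz'

theorem min_const' {P : ℕ → ℝ → Prop} (h : ∀ j, ∃ κ : ℝ, 0 < κ ∧ P j κ)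
    (hm : ∀ j κ κ', κ' ≤ κ → P j κ → P j κ') (r : ℕ) : ∃ κ : ℝ, 0 < κ ∧ ∀ j, j ≤ r → P j κ := by
  induction r with
  | zero =>
    obtain ⟨κ, hκ, H⟩ := h 0
    exact ⟨κ, hκ, fun j hj => by rw [Nat.le_zero.1 hj]; exact H⟩
  | succ r ih =>
    obtain ⟨κ, hκ, H⟩ := ih
    obtain ⟨κ1, hκ1, H1⟩ := h (r + 1)
    refine ⟨min κ κ1, lt_min hκ hκ1, fun j hj => ?_⟩
    rcases Nat.lt_or_ge j (r + 1) with hj' | hj'
    · exact hm j κ _ (min_le_left _ _) (H j (Nat.lt_succ_iff.1 hj'))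
    · rw [le_antisymm hj hj']
      exact hm _ κ1 _ (min_le_right _ _) H1

theorem cc_mono {n : ℕ} {κ κ' δ : ℝ} (hκ : κ' ≤ κ) {w : E n → ℝ}
    (h : Pool.Agent.R751.MB.CcW κ δ w) : Pool.Agent.R751.MB.CcW κ' δ w := by
  intro k hk T s hs hT v hv hvb hd
  exact h k hk T s hs hT v hv hvb fun y => (hd y).trans
    (div_le_div_of_nonneg_right hκ (Real.sqrt_nonneg _))

/-- reduction to the library theorems -/
theorem t_FSB' (hFSU : Pool.Agent.R751.MB.S_FSU)
    (hcc : ∀ (c0 δ : ℝ), 0 < c0 → 0 < δ → ∃ κ : ℝ, 0 < κ ∧ ∀ (m : ℕ) (N : E m → ℝ), Nrm N →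
      Pool.Agent.R755.KF.PI c0 (ball N) →
      Pool.Agent.R751.MB.CcW κ δ (Pool.Agent.R751.MB.ind (ball N))) : S_FSB := by
  intro B c0 δ hc0 hδ
  obtain ⟨κ, hκ, H⟩ := min_const' (P := fun b κ => ∀ (n : ℕ) (m : Fin b → ℕ)
      (e : (∀ i, E (m i)) ≃ₗ[ℝ] E n) (N : ∀ i, E (m i) → ℝ) (D : Set (Fin b → ℝ)),
      (∀ i, 1 ≤ m i) → (∀ i, Nrm (N i)) → (∀ i, Pool.Agent.R755.KF.PI c0 (ball (N i))) → UBd D →
      Pool.Agent.R751.MB.CcW κ δ (Pool.Agent.R751.MB.ind (e '' bs N D)))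
    (fun b => by
      obtain ⟨δ0, hδ0, H1⟩ := hFSU b δ hδ
      obtain ⟨κ0, hκ0, H0⟩ := hcc c0 δ0 hc0 hδ0
      obtain ⟨κ, hκ, H2⟩ := H1 κ0 hκ0
      refine ⟨κ, hκ, fun n m e N D hm hN hP hD => ?_⟩
      rw [bs_eq hN hD]
      refine H2 n m e _ _ hm (ubody_of hD) (fun i => ⟨(hN i).compact, ?_, (hN i).int⟩)
        (fun i x hx => ?_) fun i => H0 _ _ (hN i) (hP i)
      · have h3 := (hN i).conv.convex_le 1
        have h4 : ball (N i) = {x | x ∈ (univ : Set (E (m i))) ∧ N i x ≤ 1} := by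
          ext x
          simp [ball]
        rw [h4]
        exact h3
      · change N i (-x) ≤ 1
        rw [(hN i).neg]
        exact hx)
    (fun b κ κ' hκκ hP n m e N D hm hN hPI hD => cc_mono hκκ (hP n m e N D hm hN hPI hD)) B
  exact ⟨κ, hκ, fun b n m e N D hb hm hN hP hD => H b hb n m e N D hm hN hP hD⟩

end Pool.Agent.U433.UB
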